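import Pool.Agent.X296.Tri.Near

/-!
# Rational points on `w³ = c f(z)` close to a given rational point, II

The polynomial `f` is separable of degree two, or of degree three with a rational root.
-/

set_option autoImplicit false

open WeierstrassCurve Filter Topology Polynomial

namespace Pool.Agent.X296.Tri

open Pool.Agent.Y720.MZ

/-- near the rational points of the curves `w³ = c f(z)`, for all `c`, with `z ∉ T`, there are
other rational points -/
def Near {K : Type*} [Field K] {L : Type*} [NontriviallyNormedField L] (σ : K →+* L) (f : K[X])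
    (T : Set K) : Prop :=
  ∀ z₀ ∉ T, f.eval z₀ ≠ 0 ∧ ∀ c w : K, w ≠ 0 → w ^ 3 = c * f.eval z₀ → ∀ U ∈ 𝓝 (σ z₀, σ w),
    ∃ z y : K, z ≠ z₀ ∧ (σ z, σ y) ∈ U ∧ y ^ 3 = c * f.eval z

variable {K : Type*} [Field K] [NumberField K]

/-- the polynomials `z² - d` -/
theorem near_sq {d : K} (hd : d ≠ 0) : ∃ T : Set K, T.Finite ∧
    ∀ (L : Type*) [NontriviallyNormedField L] [ProperSpace L] (σ : K →+* L),
      Near σ (X ^ 2 - C d) T := by
  classical
  obtain ⟨Ξ, hΞ, htors⟩ := torsion_finite hd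
  refine ⟨Ξ ∪ ({0} ∪ {z | (X ^ 2 - C d : K[X]).eval z = 0}), ?_, ?_⟩
  · refine hΞ.union ((Set.finite_singleton _).union ?_)
    have h0 : (X ^ 2 - C d : K[X]) ≠ 0 := X_pow_sub_C_ne_zero two_pos d
    exact ((X ^ 2 - C d : K[X]).roots.toFinset.finite_toSet).subset fun t ht => by
      rw [Finset.mem_coe, Multiset.mem_toFinset, mem_roots h0]
      exact ht
  intro L _ _ σ z₀ hz
  rw [Set.mem_union, Set.mem_union, not_or, not_or] at hz
  obtain ⟨hz1, hz2, hz3⟩ := hz
  have hz0 : z₀ ≠ 0 := hz2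
  have hf0 : (X ^ 2 - C d : K[X]).eval z₀ ≠ 0 := hz3
  refine ⟨hf0, fun c w hw hwc U hU => ?_⟩
  have hev : ∀ z, (X ^ 2 - C d : K[X]).eval z = z ^ 2 - d := fun z => by simp
  rw [hev] at hwc
  have hc : c ≠ 0 := by
    rintro rfl
    rw [zero_mul] at hwc
    exact hw (pow_eq_zero_iff three_ne_zero |>.1 hwc)
  have hσc : σ c ≠ 0 := (map_ne_zero σ).2 hc
  have hk : c ^ 4 * d ≠ 0 := mul_ne_zero (pow_ne_zero 4 hc) hd
  have hx₀ : c * w ≠ 0 := mul_ne_zero hc hw
  have hy₀ : c ^ 2 * z₀ ≠ 0 := mul_ne_zero (pow_ne_zero 2 hc) hz0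
  have hns : (cv 0 0 (c ^ 4 * d)).toAffine.Nonsingular (c * w) (c ^ 2 * z₀) := by
    rw [cv_ns]
    refine ⟨?_, Or.inr (mul_ne_zero two_ne_zero hy₀)⟩
    linear_combination -c ^ 3 * hwc
  have hP := htors c hc _ rfl _ _ hns (by
    have e : c ^ 2 * z₀ / c ^ 2 = z₀ := by field_simp
    rw [e]; exact hz1)
  -- the change of coordinates
  have hcont : Continuous fun p : L × L => (p.2 / σ c ^ 2, p.1 / σ c) := by fun_prop
  have hpre : (fun p : L × L => (p.2 / σ c ^ 2, p.1 / σ c)) ⁻¹' U ∈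
      𝓝 (σ (c * w), σ (c ^ 2 * z₀)) := by
    apply hcont.continuousAt.preimage_mem_nhds
    have e : ((σ (c ^ 2 * z₀)) / σ c ^ 2, σ (c * w) / σ c) = (σ z₀, σ w) := by
      rw [map_mul, map_mul, map_pow]
      congr 1 <;> field_simp
    rw [e]
    exact hU
  obtain ⟨ε, hε, hball⟩ := Metric.mem_nhds_iff.1 hpre
  obtain ⟨x, y, h1, h2, h3, h4⟩ := near_E σ hk hx₀ hy₀ hns hP hε
  have h5 : (σ x, σ y) ∈ Metric.ball (σ (c * w), σ (c ^ 2 * z₀)) ε := by
    rw [Metric.mem_ball, Prod.dist_eq, max_lt_iff, dist_eq_norm, dist_eq_norm]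
    simp only
    rw [← map_sub, ← map_sub]
    exact ⟨h2, h3⟩
  refine ⟨y / c ^ 2, x / c, ?_, ?_, ?_⟩
  · intro h0
    apply h4
    rw [← h0]
    field_simp
  · have h6 := hball h5
    simp only [Set.mem_preimage] at h6
    rw [map_div₀, map_div₀, map_pow]
    exact h6
  · rw [hev, div_pow, div_pow]
    have h7 : x ^ 3 = y ^ 2 - c ^ 4 * d := by rw [h1]; ring
    rw [h7]
    field_simp

/-- the polynomials of degree two -/
theorem near_two {a b e : K} (ha : a ≠ 0) (hD : b ^ 2 - 4 * a * e ≠ 0) : ∃ T : Set K, T.Finite ∧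
    ∀ (L : Type*) [NontriviallyNormedField L] [ProperSpace L] (σ : K →+* L),
      Near σ (C a * X ^ 2 + C b * X + C e) T := by
  have h2 : (2 : K) ≠ 0 := two_ne_zero
  obtain ⟨T, hT, h⟩ := near_sq (d := (b ^ 2 - 4 * a * e) / (2 * a) ^ 2)
    (div_ne_zero hD (pow_ne_zero 2 (mul_ne_zero h2 ha)))
  set d := (b ^ 2 - 4 * a * e) / (2 * a) ^ 2 with hd
  refine ⟨(fun z => z + b / (2 * a)) ⁻¹' T, hT.preimage (add_left_injective _).injOn, ?_⟩
  intro L _ _ σ z₀ hz
  have key : ∀ z, (C a * X ^ 2 + C b * X + C e : K[X]).eval z =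
      a * (X ^ 2 - C d : K[X]).eval (z + b / (2 * a)) := by
    intro z
    simp only [eval_add, eval_mul, eval_C, eval_X, eval_pow, eval_sub, hd]
    field_simp
    ring
  obtain ⟨h1, h3⟩ := h L σ _ hz
  refine ⟨by rw [key]; exact mul_ne_zero ha h1, fun c w hw hwc U hU => ?_⟩
  rw [key, ← mul_assoc] at hwc
  have hcont : Continuous fun p : L × L => (p.1 - σ (b / (2 * a)), p.2) := by fun_prop
  have hpre : (fun p : L × L => (p.1 - σ (b / (2 * a)), p.2)) ⁻¹' U ∈
      𝓝 (σ (z₀ + b / (2 * a)), σ w) := by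
    apply hcont.continuousAt.preimage_mem_nhds
    have e1 : σ (z₀ + b / (2 * a)) - σ (b / (2 * a)) = σ z₀ := by rw [map_add]; ring
    simp only [e1]
    exact hU
  obtain ⟨z, y, k1, k2, k3⟩ := h3 (c * a) w hw hwc _ hpre
  refine ⟨z - b / (2 * a), y, fun h0 => k1 (by rw [← h0]; ring), ?_, ?_⟩
  · rw [map_sub]
    exact k2
  · rw [key, ← mul_assoc, sub_add_cancel]
    exact k3

/-- the polynomials of degree three with a rational root -/
theorem near_three {a b e s : K} (he : a * s ^ 2 + b * s + e ≠ 0) (hD : b ^ 2 - 4 * a * e ≠ 0) :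
    ∃ T : Set K, T.Finite ∧ ∀ (L : Type*) [NontriviallyNormedField L] [ProperSpace L]
      (σ : K →+* L), Near σ ((X - C s) * (C a * X ^ 2 + C b * X + C e)) T := by
  obtain ⟨T, hT, h⟩ := near_two (a := a * s ^ 2 + b * s + e) (b := 2 * a * s + b) (e := a) he (by
    have : (2 * a * s + b) ^ 2 - 4 * (a * s ^ 2 + b * s + e) * a = b ^ 2 - 4 * a * e := by ring
    rw [this]; exact hD)
  set g : K[X] := C (a * s ^ 2 + b * s + e) * X ^ 2 + C (2 * a * s + b) * X + C a with hg
  refine ⟨{s} ∪ (fun z => (z - s)⁻¹) ⁻¹' T, (Set.finite_singleton _).union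
    (hT.preimage (inv_injective.comp (sub_left_injective (b := s))).injOn), ?_⟩
  intro L _ _ σ z₀ hz
  rw [Set.mem_union, not_or] at hz
  have hzs : z₀ - s ≠ 0 := sub_ne_zero.2 hz.1
  have key : ∀ x, x ≠ 0 → ((X - C s) * (C a * X ^ 2 + C b * X + C e) : K[X]).eval (s + x⁻¹) =
      g.eval x / x ^ 3 := by
    intro x hx
    simp only [hg, eval_add, eval_mul, eval_C, eval_X, eval_pow, eval_sub]
    field_simp
    ring
  set x₀ := (z₀ - s)⁻¹ with hx₀
  have hx0 : x₀ ≠ 0 := inv_ne_zero hzs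
  have hzx : z₀ = s + x₀⁻¹ := by rw [hx₀, inv_inv]; ring
  obtain ⟨h1, h3⟩ := h L σ x₀ hz.2
  refine ⟨by rw [hzx, key _ hx0]; exact div_ne_zero h1 (pow_ne_zero 3 hx0),
    fun c w hw hwc U hU => ?_⟩
  rw [hzx, key _ hx0] at hwc
  have hσx : σ x₀ ≠ 0 := (map_ne_zero σ).2 hx0
  have hcont : ContinuousAt (fun p : L × L => (σ s + p.1⁻¹, p.2 / p.1)) (σ x₀, σ (w * x₀)) := by
    refine ContinuousAt.prodMk ?_ ?_
    · exact continuousAt_const.add (continuousAt_fst.inv₀ hσx)
    · exact continuousAt_snd.div continuousAt_fst hσx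
  have hpre : ((fun p : L × L => (σ s + p.1⁻¹, p.2 / p.1)) ⁻¹' U) ∩ {p | p.1 ≠ 0} ∈
      𝓝 (σ x₀, σ (w * x₀)) := by
    refine inter_mem ?_ ?_
    · apply hcont.preimage_mem_nhds
      have a1 : σ s + (σ x₀)⁻¹ = σ z₀ := by rw [← map_inv₀, ← map_add, ← hzx]
      have a2 : σ (w * x₀) / σ x₀ = σ w := by rw [map_mul, mul_div_cancel_right₀ _ hσx]
      simp only [a1, a2]
      exact hU
    · exact (isOpen_ne.preimage continuous_fst).mem_nhds hσx
  obtain ⟨x, v, k1, k2, k3⟩ := h3 c (w * x₀) (mul_ne_zero hw hx0) (by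
    rw [mul_pow, hwc]; field_simp) _ hpre
  have hx : x ≠ 0 := by
    rintro rfl
    exact k2.2 (map_zero σ)
  refine ⟨s + x⁻¹, v / x, ?_, ?_, ?_⟩
  · rw [hzx]
    intro h0
    apply k1
    exact inv_injective (add_left_cancel h0)
  · have h4 := k2.1
    simp only [Set.mem_preimage] at h4
    rw [map_add, map_inv₀, map_div₀]
    exact h4
  · rw [key _ hx, div_pow, k3]
    ring

/-- the discriminant of a separable polynomial of degree two -/
lemma disc_ne {a b e : K} (ha : a ≠ 0) (h : (C a * X ^ 2 + C b * X + C e : K[X]).Separable) :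
    b ^ 2 - 4 * a * e ≠ 0 := by
  intro h0
  have he : e = b ^ 2 / (4 * a) := by
    field_simp
    linear_combination -h0
  have h1 : (C a * X ^ 2 + C b * X + C e : K[X]) =
      C a * ((X + C (b / (2 * a))) * (X + C (b / (2 * a)))) := by
    have e1 : (C b : K[X]) = C a * (C (b / (2 * a)) + C (b / (2 * a))) := by
      rw [← C_add, ← C_mul]
      congr 1
      field_simp
      norm_num
    have e2 : (C e : K[X]) = C a * (C (b / (2 * a)) * C (b / (2 * a))) := by
      rw [← C_mul, ← C_mul, he]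
      congr 1
      field_simp
      norm_num
    rw [e1, e2]
    ring
  have h2 := h.squarefree (X + C (b / (2 * a))) ⟨C a, by rw [h1]; ring⟩
  have h3 := natDegree_eq_zero_of_isUnit h2
  rw [natDegree_X_add_C] at h3
  exact one_ne_zero h3

lemma quad_of {g : K[X]} (hg : g.natDegree = 2) :
    g = C (g.coeff 2) * X ^ 2 + C (g.coeff 1) * X + C (g.coeff 0) ∧ g.coeff 2 ≠ 0 := by
  refine ⟨?_, ?_⟩
  · conv_lhs => rw [g.as_sum_range_C_mul_X_pow' (show g.natDegree < 3 by omega)]
    simp only [Finset.sum_range_succ, Finset.sum_range_zero]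
    ring
  · have h1 : g ≠ 0 := by
      rintro rfl
      rw [natDegree_zero] at hg
      omega
    have h2 := leadingCoeff_ne_zero.2 h1
    rwa [leadingCoeff, hg] at h2

/-- **points close to a given one, for almost all abscissae** -/
theorem near_all {f : K[X]} (hs : f.Separable)
    (hf : f.natDegree = 2 ∨ (f.natDegree = 3 ∧ ∃ s, f.eval s = 0)) : ∃ T : Set K, T.Finite ∧
    ∀ (L : Type*) [NontriviallyNormedField L] [ProperSpace L] (σ : K →+* L), Near σ f T := by
  rcases hf with hf | ⟨hf, s, hfs⟩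
  · obtain ⟨h1, h2⟩ := quad_of hf
    have h3 := hs
    rw [h1] at h3
    have h4 := near_two h2 (disc_ne h2 h3)
    rw [← h1] at h4
    exact h4
  · obtain ⟨g, hg⟩ := dvd_iff_isRoot.2 (show f.IsRoot s from hfs)
    have hf0 : f ≠ 0 := by
      rintro rfl
      rw [natDegree_zero] at hf
      omega
    have hg0 : g ≠ 0 := by
      rintro rfl
      rw [mul_zero] at hg
      exact hf0 hg
    have hgd : g.natDegree = 2 := by
      have h1 : f.natDegree = (X - C s : K[X]).natDegree + g.natDegree := by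
        rw [hg]
        exact natDegree_mul (X_sub_C_ne_zero s) hg0
      rw [natDegree_X_sub_C, hf] at h1
      omega
    obtain ⟨h1, h2⟩ := quad_of hgd
    have h3 : g.Separable := (hg ▸ hs).of_mul_right
    have h3' := h3
    rw [h1] at h3'
    have h5 : g.coeff 2 * s ^ 2 + g.coeff 1 * s + g.coeff 0 ≠ 0 := by
      intro h0
      have h6 : g.IsRoot s := by
        rw [IsRoot, h1]
        simp only [eval_add, eval_mul, eval_C, eval_X, eval_pow]
        exact h0
      obtain ⟨k, hk⟩ := dvd_iff_isRoot.2 h6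
      have h7 := hs.squarefree (X - C s) ⟨k, by rw [hg, hk]; ring⟩
      have h8 := natDegree_eq_zero_of_isUnit h7
      rw [natDegree_X_sub_C] at h8
      exact one_ne_zero h8
    have h4 := near_three h5 (disc_ne h2 h3')
    rw [← h1, ← hg] at h4
    exact h4

end Pool.Agent.X296.Tri
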