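import Mathlib

/-!
# The norm form of a cubic extension of a field of rational functions
-/

set_option autoImplicit false

namespace Pool.Agent.X296.Tri

open Polynomial

variable {K : Type*} [Field K]

/-- one step of the descent -/
lemma norm_step {π E g₀ g₁ g₂ : K[X]} (hπ : Prime π) (hE : ¬ π ∣ E)
    (h : g₀ ^ 3 + π * E * g₁ ^ 3 + (π * E) ^ 2 * g₂ ^ 3 - 3 * (π * E) * g₀ * g₁ * g₂ = 0) :
    ∃ h₀ h₁ h₂, g₀ = π * h₀ ∧ g₁ = π * h₁ ∧ g₂ = π * h₂ ∧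
      h₀ ^ 3 + π * E * h₁ ^ 3 + (π * E) ^ 2 * h₂ ^ 3 - 3 * (π * E) * h₀ * h₁ * h₂ = 0 := by
  have hπ0 : π ≠ 0 := hπ.ne_zero
  have d0 : π ∣ g₀ ^ 3 := by
    refine ⟨-(E * g₁ ^ 3 + π * E ^ 2 * g₂ ^ 3 - 3 * E * g₀ * g₁ * g₂), ?_⟩
    linear_combination h
  obtain ⟨h₀, rfl⟩ := hπ.dvd_of_dvd_pow d0
  have h1 : π ^ 2 * h₀ ^ 3 + E * g₁ ^ 3 + π * E ^ 2 * g₂ ^ 3 - 3 * π * E * h₀ * g₁ * g₂ = 0 := by
    apply mul_left_cancel₀ hπ0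
    linear_combination h
  have d1 : π ∣ E * g₁ ^ 3 := by
    refine ⟨-(π * h₀ ^ 3 + E ^ 2 * g₂ ^ 3 - 3 * E * h₀ * g₁ * g₂), ?_⟩
    linear_combination h1
  obtain ⟨h₁, rfl⟩ := hπ.dvd_of_dvd_pow ((hπ.dvd_or_dvd d1).resolve_left hE)
  have h2 : π * h₀ ^ 3 + π ^ 2 * E * h₁ ^ 3 + E ^ 2 * g₂ ^ 3 - 3 * π * E * h₀ * h₁ * g₂ = 0 := by
    apply mul_left_cancel₀ hπ0
    linear_combination h1
  have d2 : π ∣ E ^ 2 * g₂ ^ 3 := by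
    refine ⟨-(h₀ ^ 3 + π * E * h₁ ^ 3 - 3 * E * h₀ * h₁ * g₂), ?_⟩
    linear_combination h2
  have hE2 : ¬ π ∣ E ^ 2 := fun h3 => hE (hπ.dvd_of_dvd_pow h3)
  obtain ⟨h₂, rfl⟩ := hπ.dvd_of_dvd_pow ((hπ.dvd_or_dvd d2).resolve_left hE2)
  refine ⟨h₀, h₁, h₂, rfl, rfl, rfl, ?_⟩
  apply mul_left_cancel₀ hπ0
  linear_combination h2

/-- **the norm form has no zeros** -/
theorem norm_zero {F g₀ g₁ g₂ : K[X]} (hF : F.Separable) (hd : F.natDegree ≠ 0)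
    (h : g₀ ^ 3 + F * g₁ ^ 3 + F ^ 2 * g₂ ^ 3 - 3 * F * g₀ * g₁ * g₂ = 0) :
    g₀ = 0 ∧ g₁ = 0 ∧ g₂ = 0 := by
  have hF0 : F ≠ 0 := by
    rintro rfl
    exact hd natDegree_zero
  have hFu : ¬ IsUnit F := fun hu => hd (natDegree_eq_zero_of_isUnit hu)
  obtain ⟨π, hπi, E, rfl⟩ := WfDvdMonoid.exists_irreducible_factor hFu hF0
  have hπ : Prime π := hπi.prime
  have hE : ¬ π ∣ E := by
    rintro ⟨G, rfl⟩
    have h1 : Squarefree (π * (π * G)) := hF.squarefree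
    have h2 := h1 π ⟨G, by ring⟩
    exact hπ.not_unit h2
  -- divisibility by all powers
  have key : ∀ n : ℕ, ∀ g₀ g₁ g₂ : K[X],
      g₀ ^ 3 + π * E * g₁ ^ 3 + (π * E) ^ 2 * g₂ ^ 3 - 3 * (π * E) * g₀ * g₁ * g₂ = 0 →
      π ^ n ∣ g₀ ∧ π ^ n ∣ g₁ ∧ π ^ n ∣ g₂ := by
    intro n
    induction n with
    | zero => intro g₀ g₁ g₂ _; simp
    | succ n ih =>
      intro g₀ g₁ g₂ hg
      obtain ⟨h₀, h₁, h₂, rfl, rfl, rfl, hh⟩ := norm_step hπ hE hg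
      obtain ⟨a0, a1, a2⟩ := ih h₀ h₁ h₂ hh
      rw [pow_succ']
      exact ⟨mul_dvd_mul_left _ a0, mul_dvd_mul_left _ a1, mul_dvd_mul_left _ a2⟩
  have hfin : ∀ g : K[X], (∀ n : ℕ, π ^ n ∣ g) → g = 0 := by
    intro g hg
    by_contra hg0
    have h1 := natDegree_le_of_dvd (hg (g.natDegree + 1)) hg0
    have h2 : 1 ≤ π.natDegree := by
      by_contra hcon
      have h3 : π.natDegree = 0 := by omega
      rw [natDegree_eq_zero] at h3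
      obtain ⟨a, rfl⟩ := h3
      have ha : a ≠ 0 := by
        rintro rfl
        exact hπ.ne_zero (map_zero _)
      exact hπ.not_unit (isUnit_C.2 (isUnit_iff_ne_zero.2 ha))
    rw [natDegree_pow] at h1
    nlinarith
  exact ⟨hfin _ fun n => (key n _ _ _ h).1, hfin _ fun n => (key n _ _ _ h).2.1,
    hfin _ fun n => (key n _ _ _ h).2.2⟩

end Pool.Agent.X296.Tri
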