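import Pool.Agent.X296.Tri.Cov
import Pool.Agent.X296.Tri.Norm
import Pool.Agent.Y720.MZ.Kum2

/-!
# The local ideals of the triple covers `w³ = A f₁(z₁) ⋯ f_r(z_r)`
-/

set_option autoImplicit false
set_option linter.unusedSectionVars false

open Filter Topology

namespace Pool.Agent.X296.Tri

open Pool.Agent.Y720.MZ Pool.Agent.TH729.CV

section dec

variable {K : Type*} [Field K]

/-- polynomials on a triple cover -/
lemma exists_dec3 {τ : Type*} (G : MvPolynomial τ K) (f : MvPolynomial (Option τ) K) :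
    ∃ g₀ g₁ g₂ : MvPolynomial τ K, ∀ (w : K) (y : τ → K), w ^ 3 = MvPolynomial.eval y G →
      MvPolynomial.eval (po w y) f = MvPolynomial.eval y g₀ + w * MvPolynomial.eval y g₁ +
        w ^ 2 * MvPolynomial.eval y g₂ := by
  induction f using MvPolynomial.induction_on with
  | C a => exact ⟨MvPolynomial.C a, 0, 0, fun w y _ => by simp⟩
  | add p q hp hq =>
    obtain ⟨g₀, g₁, g₂, e₁⟩ := hp
    obtain ⟨h₀, h₁, h₂, e₂⟩ := hq
    refine ⟨g₀ + h₀, g₁ + h₁, g₂ + h₂, fun w y hw => ?_⟩
    rw [map_add, e₁ w y hw, e₂ w y hw, map_add, map_add, map_add]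
    ring
  | mul_X p i hp =>
    obtain ⟨g₀, g₁, g₂, e⟩ := hp
    rcases i with _ | i
    · refine ⟨G * g₂, g₀, g₁, fun w y hw => ?_⟩
      rw [map_mul, e w y hw, MvPolynomial.eval_X, map_mul, po_none]
      linear_combination MvPolynomial.eval y g₂ * hw
    · refine ⟨g₀ * MvPolynomial.X i, g₁ * MvPolynomial.X i, g₂ * MvPolynomial.X i,
        fun w y hw => ?_⟩
      rw [map_mul, e w y hw, MvPolynomial.eval_X, map_mul, map_mul, map_mul, MvPolynomial.eval_X,
        po_some]
      ring

/-- functions on a curve `w³ = c F(t)` -/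
lemma cub_lemma [Infinite K] {F : Polynomial K} (hF : F.Separable) (hd : F.natDegree ≠ 0) {c : K}
    (hc : c ≠ 0) {G₀ G₁ G₂ : K → K} (h₀ : PF1 G₀) (h₁ : PF1 G₁) (h₂ : PF1 G₂)
    (h : {t | ∃ y, y ^ 3 = c * F.eval t ∧ G₀ t + y * G₁ t + y ^ 2 * G₂ t = 0}.Infinite) :
    ∀ t, G₀ t = 0 ∧ G₁ t = 0 ∧ G₂ t = 0 := by
  obtain ⟨P₀, e₀⟩ := h₀
  obtain ⟨P₁, e₁⟩ := h₁
  obtain ⟨P₂, e₂⟩ := h₂
  have hcF : (Polynomial.C c * F).Separable :=
    hF.unit_mul (Polynomial.isUnit_C.2 (isUnit_iff_ne_zero.2 hc))
  have hcd : (Polynomial.C c * F).natDegree ≠ 0 := by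
    rwa [Polynomial.natDegree_C_mul hc]
  have hz : P₀ ^ 3 + (Polynomial.C c * F) * P₁ ^ 3 + (Polynomial.C c * F) ^ 2 * P₂ ^ 3 -
      3 * (Polynomial.C c * F) * P₀ * P₁ * P₂ = 0 := by
    apply Polynomial.eq_zero_of_infinite_isRoot
    refine h.mono ?_
    rintro t ⟨y, hy, hG⟩
    change Polynomial.eval t _ = 0
    simp only [Polynomial.eval_sub, Polynomial.eval_add, Polynomial.eval_mul, Polynomial.eval_pow,
      Polynomial.eval_C, e₀, e₁, e₂, ← hy]
    have e3 : Polynomial.eval t (3 : Polynomial K) = 3 := by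
      simpa using Polynomial.eval_natCast (x := t) (n := 3) (R := K)
    rw [e3]
    linear_combination (G₀ t ^ 2 + (y * G₁ t) ^ 2 + (y ^ 2 * G₂ t) ^ 2 - G₀ t * (y * G₁ t) -
      G₀ t * (y ^ 2 * G₂ t) - (y * G₁ t) * (y ^ 2 * G₂ t)) * hG
  obtain ⟨r₀, r₁, r₂⟩ := norm_zero hcF hcd hz
  intro t
  rw [← e₀, ← e₁, ← e₂, r₀, r₁, r₂]
  simp

end dec

section defs

variable {K : Type*} [Field K] {r : ℕ}

/-- the function `A f₁(z₁) ⋯ f_r(z_r)` -/
def FT (A : K) (f : Fin r → Polynomial K) (u : Fin r → K) : K := A * ∏ i, (f i).eval (u i)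

/-- the points of the triple cover -/
def ST (A : K) (f : Fin r → Polynomial K) : Set (Option (Fin r) → K) :=
  {y | y none ^ 3 = FT A f fun i => y (some i)}

/-- the condition of a stratum -/
def CT (J : Finset (Fin r)) (R : Fin r → K) (T : Fin r → Set K) (u : Fin r → K) : Prop :=
  (∀ i ∈ J, u i = R i) ∧ ∀ i ∉ J, u i ∉ T i

/-- a stratum -/
def StT (A : K) (f : Fin r → Polynomial K) (J : Finset (Fin r)) (R : Fin r → K)
    (T : Fin r → Set K) : Set (Option (Fin r) → K) :=
  {y | y none ≠ 0 ∧ y none ^ 3 = FT A f (fun i => y (some i)) ∧ CT J R T fun i => y (some i)}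

/-- the constant in the direction `i` -/
def CC (A : K) (f : Fin r → Polynomial K) (i : Fin r) (u : Fin r → K) : K :=
  A * ∏ j ∈ Finset.univ.erase i, (f j).eval (u j)

lemma FT_update (A : K) (f : Fin r → Polynomial K) (i : Fin r) (u : Fin r → K) (t : K) :
    FT A f (Function.update u i t) = CC A f i u * (f i).eval t := by
  rw [FT, CC, ← Finset.mul_prod_erase _ _ (Finset.mem_univ i), Function.update_self]
  have e : ∏ x ∈ Finset.univ.erase i, (f x).eval (Function.update u i t x) =
      ∏ x ∈ Finset.univ.erase i, (f x).eval (u x) := by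
    refine Finset.prod_congr rfl fun j hj => ?_
    rw [Function.update_of_ne (Finset.ne_of_mem_erase hj)]
  rw [e]
  ring

lemma FT_CC (A : K) (f : Fin r → Polynomial K) (i : Fin r) (u : Fin r → K) :
    FT A f u = CC A f i u * (f i).eval (u i) := by
  have h := FT_update A f i u (u i)
  rwa [Function.update_eq_self] at h

lemma exists_FT (A : K) (f : Fin r → Polynomial K) : ∃ G : MvPolynomial (Fin r) K,
    ∀ u, MvPolynomial.eval u G = FT A f u := by
  refine ⟨MvPolynomial.C A * ∏ i, Polynomial.aeval (MvPolynomial.X i : MvPolynomial (Fin r) K) (f i),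
    fun u => ?_⟩
  rw [map_mul, MvPolynomial.eval_C, map_prod, FT]
  congr 1
  refine Finset.prod_congr rfl fun i _ => ?_
  have h1 : MvPolynomial.aeval u (Polynomial.aeval (MvPolynomial.X i : MvPolynomial (Fin r) K)
      (f i)) = Polynomial.aeval (MvPolynomial.aeval u (MvPolynomial.X i : MvPolynomial (Fin r) K))
      (f i) := (Polynomial.aeval_algHom_apply (MvPolynomial.aeval u) _ _).symm
  rw [MvPolynomial.aeval_X, MvPolynomial.aeval_eq_eval, Polynomial.coe_aeval_eq_eval] at h1
  exact h1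

end defs

section main

variable {K : Type*} [Field K] [NumberField K] {L : Type*} [NontriviallyNormedField L]
  [CompleteSpace L] [CharZero L] {r : ℕ}

/-- the base points of a stratum in an open set -/
def GT (σ : K →+* L) (A : K) (f : Fin r → Polynomial K) (J : Finset (Fin r)) (R : Fin r → K)
    (T : Fin r → Set K) (U : Set (Option (Fin r) → L)) : Set (Fin r → K) :=
  {u | ∃ w : K, w ≠ 0 ∧ w ^ 3 = FT A f u ∧ CT J R T u ∧ (fun o => σ (po w u o)) ∈ U}

/-- infinitely many points in a free direction -/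
lemma inf_dir (σ : K →+* L) {A : K} {f : Fin r → Polynomial K} {J : Finset (Fin r)}
    {R : Fin r → K} {T : Fin r → Set K} (hT : ∀ i, (T i).Finite) (hN : ∀ i, Near σ (f i) (T i))
    {U : Set (Option (Fin r) → L)} (hU : IsOpen U) {u : Fin r → K} (hu : u ∈ GT σ A f J R T U)
    {i : Fin r} (hi : i ∉ J) : CC A f i u ≠ 0 ∧
      {t : K | Function.update u i t ∈ GT σ A f J R T U ∧ ∃ y, y ≠ 0 ∧
        y ^ 3 = CC A f i u * (f i).eval t ∧
        (fun o => σ (po y (Function.update u i t) o)) ∈ U ∧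
        CT J R T (Function.update u i t)}.Infinite := by
  classical
  obtain ⟨w, hw, hwF, hC, hwU⟩ := hu
  rw [FT_CC A f i u] at hwF
  have hc : CC A f i u ≠ 0 := by
    intro h0
    rw [h0, zero_mul] at hwF
    exact hw (pow_eq_zero_iff three_ne_zero |>.1 hwF)
  refine ⟨hc, ?_⟩
  obtain ⟨-, hnear⟩ := hN i (u i) (hC.2 i hi)
  intro hfin
  -- the neighbourhood
  set E : Set K := (T i ∪ {t : K | Function.update u i t ∈ GT σ A f J R T U ∧ ∃ y, y ≠ 0 ∧
        y ^ 3 = CC A f i u * (f i).eval t ∧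
        (fun o => σ (po y (Function.update u i t) o)) ∈ U ∧
        CT J R T (Function.update u i t)}) \ {u i} with hE
  have hEf : E.Finite := ((hT i).union hfin).sdiff
  have hcont : Continuous fun p : L × L =>
      (fun o => o.elim p.2 fun j => if j = i then p.1 else σ (u j) : Option (Fin r) → L) := by
    refine continuous_pi fun o => ?_
    rcases o with _ | j
    · exact continuous_snd
    · by_cases hj : j = i
      · simp only [Option.elim_some, if_pos hj]
        exact continuous_fst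
      · simp only [Option.elim_some, if_neg hj]
        exact continuous_const
  have hval : ∀ y t : K, (fun o => o.elim (σ y) fun j => if j = i then σ t else σ (u j) :
      Option (Fin r) → L) = fun o => σ (po y (Function.update u i t) o) := by
    intro y t
    funext o
    rcases o with _ | j
    · rfl
    · by_cases hj : j = i
      · subst hj
        simp
      · simp [hj]
  have hW : ((fun p : L × L =>
      (fun o => o.elim p.2 fun j => if j = i then p.1 else σ (u j) : Option (Fin r) → L)) ⁻¹' U) ∩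
      {p | p.1 ∉ σ '' E} ∩ {p | p.2 ≠ 0} ∈ 𝓝 (σ (u i), σ w) := by
    refine inter_mem (inter_mem ?_ ?_) ?_
    · apply hcont.continuousAt.preimage_mem_nhds
      have e := hval w (u i)
      rw [Function.update_eq_self] at e
      simp only [e]
      exact hU.mem_nhds hwU
    · refine IsOpen.mem_nhds ?_ ?_
      · exact ((hEf.image σ).isClosed.isOpen_compl).preimage continuous_fst
      · rintro ⟨e, he, hσe⟩
        exact he.2 (σ.injective hσe)
    · exact (isOpen_ne.preimage continuous_snd).mem_nhds ((map_ne_zero σ).2 hw)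
  obtain ⟨t, y, k1, ⟨⟨k2, k3⟩, k4⟩, k5⟩ := hnear _ w hw hwF _ hW
  have hy : y ≠ 0 := by
    rintro rfl
    exact k4 (map_zero σ)
  have htE : t ∉ E := fun h => k3 ⟨t, h, rfl⟩
  have htT : t ∉ T i := fun h => htE ⟨Or.inl h, k1⟩
  have hCT : CT J R T (Function.update u i t) := by
    refine ⟨fun j hj => ?_, fun j hj => ?_⟩
    · have hji : j ≠ i := by
        rintro rfl
        exact hi hj
      rw [Function.update_of_ne hji]
      exact hC.1 j hj
    · by_cases hji : j = i
      · subst hji
        rw [Function.update_self]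
        exact htT
      · rw [Function.update_of_ne hji]
        exact hC.2 j hj
  have hUt : (fun o => σ (po y (Function.update u i t) o)) ∈ U := by
    rw [← hval]
    exact k2
  apply htE
  refine ⟨Or.inr ⟨⟨y, hy, ?_, hCT, hUt⟩, y, hy, k5, hUt, hCT⟩, k1⟩
  rw [FT_update]
  exact k5

/-- **the strata with a free coordinate are self-dense** -/
theorem str_conn (σ : K →+* L) {A : K} {f : Fin r → Polynomial K}
    {J : Finset (Fin r)} {R : Fin r → K} {T : Fin r → Set K} (hT : ∀ i, (T i).Finite)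
    (hN : ∀ i, Near σ (f i) (T i)) (hsep : ∀ i, (f i).Separable)
    (hdeg : ∀ i, (f i).natDegree ≠ 0) (hJ : ∃ i, i ∉ J) : FA σ (StT A f J R T) := by
  classical
  obtain ⟨i₀, hi₀⟩ := hJ
  apply FA.of_conn'
  intro y₀ hy₀ F hF
  obtain ⟨U', hU', hFU'⟩ := mem_IA_iff.1 hF
  obtain ⟨U, hUU', hU, hyU⟩ := mem_nhds_iff.1 hU'
  obtain ⟨G, hG⟩ := exists_FT A f
  obtain ⟨g₀, g₁, g₂, hg⟩ := exists_dec3 G F
  have hval : ∀ w u, w ^ 3 = FT A f u → MvPolynomial.eval (po w u) F =
      MvPolynomial.eval u g₀ + w * MvPolynomial.eval u g₁ + w ^ 2 * MvPolynomial.eval u g₂ :=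
    fun w u hw => hg w u (by rw [hG]; exact hw)
  have hFG : ∀ w u, w ≠ 0 → w ^ 3 = FT A f u → CT J R T u → (fun o => σ (po w u o)) ∈ U →
      MvPolynomial.eval u g₀ + w * MvPolynomial.eval u g₁ + w ^ 2 * MvPolynomial.eval u g₂ = 0 := by
    intro w u h1 h2 h3 h4
    rw [← hval w u h2]
    exact hFU' _ ⟨h1, h2, h3⟩ (hUU' h4)
  have pf : ∀ (i : Fin r) (u : Fin r → K) (g : MvPolynomial (Fin r) K),
      PF1 fun t : K => MvPolynomial.eval (Function.update u i t) g := by
    intro i u g
    refine PF1.eval (φ := fun j t => Function.update u i t j) (fun j => ?_) g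
    by_cases hj : j = i
    · subst hj
      simp only [Function.update_self]
      exact PF1.id'
    · simp only [Function.update_of_ne hj]
      exact PF1.const _
  -- the three functions vanish at the base points of the stratum in `U`
  have hE : ∀ u ∈ GT σ A f J R T U, MvPolynomial.eval u g₀ = 0 ∧ MvPolynomial.eval u g₁ = 0 ∧
      MvPolynomial.eval u g₂ = 0 := by
    intro u hu
    obtain ⟨hC, hinf⟩ := inf_dir σ hT hN hU hu hi₀
    have h1 := cub_lemma (hsep i₀) (hdeg i₀) hC (pf i₀ u g₀) (pf i₀ u g₁) (pf i₀ u g₂)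
      (hinf.mono fun t ht => by
        obtain ⟨-, y, h1, h2, h3, h4⟩ := ht
        exact ⟨y, h2, hFG y _ h1 (by rw [FT_update]; exact h2) h4 h3⟩) (u i₀)
    rwa [Function.update_eq_self] at h1
  -- spreading
  have hfin : ∀ g : MvPolynomial (Fin r) K, (∀ u ∈ GT σ A f J R T U, MvPolynomial.eval u g = 0) →
      ∀ u₀ ∈ GT σ A f J R T U, ∀ u, CT J R T u → MvPolynomial.eval u g = 0 := by
    intro g hg u₀ hu₀ u hu
    refine spread (id : Fin r → Fin r) (W := fun b => {v | b ∈ J → v b = R b}) hg ?_ ?_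
      Finset.univ u₀ hu₀ u (fun c hc => (hc (Finset.mem_univ _)).elim) fun b _ hb => hu.1 b hb
    · intro b y y' hyy' hy hb
      rw [← hyy' b rfl]
      exact hy hb
    · intro b z hz p hp v hv
      have hov : ∀ t : K, ov (id : Fin r → Fin r) b (Function.update v b t) z =
          Function.update z b t := by
        intro t
        funext c
        by_cases hc : c = b
        · subst hc
          rw [ov_same (blk := (id : Fin r → Fin r)) (b := c) (c := c) rfl, Function.update_self,
            Function.update_self]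
        · rw [ov_ne (blk := (id : Fin r → Fin r)) (b := b) (c := c) hc, Function.update_of_ne hc]
      by_cases hb : b ∈ J
      · apply hp
        obtain ⟨w, h1, h2, h3, h4⟩ := hz
        have e : ov (id : Fin r → Fin r) b v z = z := by
          have := hov (v b)
          rw [Function.update_eq_self] at this
          rw [this, hv hb, ← h3.1 b hb, Function.update_eq_self]
        rw [e]
        exact ⟨w, h1, h2, h3, h4⟩
      · obtain ⟨-, hinf⟩ := inf_dir σ hT hN hU hz hb
        have h1 := (pf b v p).zero (hinf.mono fun t ht => by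
          apply hp
          rw [hov]
          exact ht.1) (v b)
        rwa [Function.update_eq_self] at h1
  obtain ⟨u₀, w₀, rfl⟩ : ∃ u₀ w₀, y₀ = po w₀ u₀ :=
    ⟨fun i => y₀ (some i), y₀ none, (po_eta y₀).symm⟩
  have hu₀ : u₀ ∈ GT σ A f J R T U := ⟨w₀, hy₀.1, hy₀.2.1, hy₀.2.2, hyU⟩
  intro y hy
  obtain ⟨u, w, rfl⟩ : ∃ u w, y = po w u := ⟨fun i => y (some i), y none, (po_eta y).symm⟩
  rw [hval w u hy.2.1, hfin g₀ (fun u hu => (hE u hu).1) u₀ hu₀ u hy.2.2,
    hfin g₁ (fun u hu => (hE u hu).2.1) u₀ hu₀ u hy.2.2,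
    hfin g₂ (fun u hu => (hE u hu).2.2) u₀ hu₀ u hy.2.2]
  ring

/-- finite sets -/
lemma FA_finite {τ : Type*} [Finite τ] (σ : K →+* L) (hσ : DenseRange σ) {S : Set (τ → K)}
    (hS : S.Finite) : FA σ S := by
  have h1 : S = ⋃ y ∈ hS.toFinset, {y} := by
    ext y
    simp
  rw [h1]
  refine FA.biUnion _ fun y _ => ?_
  apply FA.convex hσ
  rintro a ha b hb t
  rw [Set.mem_singleton_iff] at ha hb ⊢
  rw [ha, hb, sub_self, smul_zero, add_zero]

/-- **The triple covers `w³ = A f₁(z₁) ⋯ f_r(z_r)`.** -/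
theorem mainT [ProperSpace L] (σ : K →+* L) (hσ : DenseRange σ) {A : K} (hA : A ≠ 0)
    {f : Fin r → Polynomial K} (hsep : ∀ i, (f i).Separable)
    (hdeg : ∀ i, (f i).natDegree = 2 ∨ ((f i).natDegree = 3 ∧ ∃ s, (f i).eval s = 0)) :
    FA σ (ST A f) := by
  classical
  choose T hT hN using fun i => near_all (hsep i) (hdeg i)
  have hd0 : ∀ i, (f i).natDegree ≠ 0 := by
    intro i
    rcases hdeg i with h | ⟨h, -⟩ <;> omega
  have hf0 : ∀ i, f i ≠ 0 := by
    intro i h0
    apply hd0 i
    rw [h0, Polynomial.natDegree_zero]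
  set 𝓡 : Fin r → Finset K := fun i => insert 0 (hT i).toFinset with h𝓡
  -- the pieces
  set P1 : Set (Option (Fin r) → K) :=
    ⋃ J ∈ (Finset.univ : Finset (Finset (Fin r))).filter (fun J => ∃ i, i ∉ J),
      ⋃ R ∈ Fintype.piFinset 𝓡, StT A f J R T with hP1
  set P2 : Set (Option (Fin r) → K) :=
    {y | y none ^ 3 = FT A f (fun i => y (some i)) ∧ ∀ i, y (some i) ∈ T i} with hP2
  set P3 : Set (Option (Fin r) → K) :=
    ⋃ i ∈ (Finset.univ : Finset (Fin r)), ⋃ ρ ∈ (f i).roots.toFinset,
      {y | y none = 0 ∧ y (some i) = ρ} with hP3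
  have hS : ST A f = P1 ∪ (P2 ∪ P3) := by
    apply Set.Subset.antisymm
    · intro y hy
      have hy' : y none ^ 3 = FT A f fun i => y (some i) := hy
      by_cases hw : y none = 0
      · right; right
        have h1 : FT A f (fun i => y (some i)) = 0 := by
          rw [← hy', hw]; ring
        rw [FT] at h1
        obtain ⟨i, -, hi⟩ := Finset.prod_eq_zero_iff.1 ((mul_eq_zero.1 h1).resolve_left hA)
        rw [hP3, Set.mem_iUnion₂]
        refine ⟨i, Finset.mem_univ _, ?_⟩
        rw [Set.mem_iUnion₂]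
        refine ⟨y (some i), ?_, hw, rfl⟩
        rw [Multiset.mem_toFinset, Polynomial.mem_roots (hf0 i)]
        exact hi
      · by_cases hall : ∀ i, y (some i) ∈ T i
        · right; left
          exact ⟨hy', hall⟩
        · left
          push Not at hall
          obtain ⟨i₀, hi₀⟩ := hall
          set J : Finset (Fin r) := Finset.univ.filter fun i => y (some i) ∈ T i with hJ
          have hR : ∀ i, ∃ ρ ∈ 𝓡 i, i ∈ J → y (some i) = ρ := by
            intro i
            by_cases hi : i ∈ J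
            · exact ⟨y (some i), Finset.mem_insert_of_mem ((hT i).mem_toFinset.2
                (Finset.mem_filter.1 hi).2), fun _ => rfl⟩
            · exact ⟨0, Finset.mem_insert_self _ _, fun h => (hi h).elim⟩
          choose R hR hRJ using hR
          rw [hP1, Set.mem_iUnion₂]
          refine ⟨J, Finset.mem_filter.2 ⟨Finset.mem_univ _, i₀, fun h =>
            hi₀ (Finset.mem_filter.1 h).2⟩, ?_⟩
          rw [Set.mem_iUnion₂]
          refine ⟨R, Fintype.mem_piFinset.2 hR, hw, hy', hRJ, fun i hi h => ?_⟩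
          exact hi (Finset.mem_filter.2 ⟨Finset.mem_univ _, h⟩)
    · rintro y (hy | hy | hy)
      · rw [hP1, Set.mem_iUnion₂] at hy
        obtain ⟨J, -, hy⟩ := hy
        rw [Set.mem_iUnion₂] at hy
        obtain ⟨R, -, hy⟩ := hy
        exact hy.2.1
      · exact hy.1
      · rw [hP3, Set.mem_iUnion₂] at hy
        obtain ⟨i, -, hy⟩ := hy
        rw [Set.mem_iUnion₂] at hy
        obtain ⟨ρ, hρ, h1, h2⟩ := hy
        rw [Multiset.mem_toFinset, Polynomial.mem_roots (hf0 i)] at hρ
        change y none ^ 3 = FT A f fun i => y (some i)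
        rw [h1, FT, Finset.prod_eq_zero (Finset.mem_univ i) (by rw [h2]; exact hρ)]
        ring
  rw [hS]
  refine FA.union ?_ (FA.union ?_ ?_)
  · refine FA.biUnion _ fun J hJ => FA.biUnion _ fun R _ => ?_
    exact str_conn σ hT (fun i => hN i L σ) hsep hd0 (Finset.mem_filter.1 hJ).2
  · apply FA_finite σ hσ
    set W : Set K := ⋃ R ∈ Fintype.piFinset 𝓡, {w : K | w ^ 3 = FT A f R} with hW
    have hWf : W.Finite := by
      refine Set.Finite.biUnion (Finset.finite_toSet _) fun R _ => ?_
      have h0 : (Polynomial.X ^ 3 - Polynomial.C (FT A f R) : Polynomial K) ≠ 0 :=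
        Polynomial.X_pow_sub_C_ne_zero three_pos _
      refine ((Polynomial.X ^ 3 - Polynomial.C (FT A f R) :
        Polynomial K).roots.toFinset.finite_toSet).subset fun w hw => ?_
      rw [Finset.mem_coe, Multiset.mem_toFinset, Polynomial.mem_roots h0]
      have hw' : w ^ 3 = FT A f R := hw
      simp [hw']
    have hfin : {y : Option (Fin r) → K | ∀ o, y o ∈ (o.elim W T : Set K)}.Finite := by
      refine Set.Finite.pi' fun o => ?_
      rcases o with _ | i
      · exact hWf
      · exact hT i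
    refine hfin.subset ?_
    rintro y ⟨h1, h2⟩ (_ | i)
    · change y none ∈ W
      rw [hW, Set.mem_iUnion₂]
      exact ⟨fun i => y (some i), Fintype.mem_piFinset.2 fun i =>
        Finset.mem_insert_of_mem ((hT i).mem_toFinset.2 (h2 i)), h1⟩
    · exact h2 i
  · refine FA.biUnion _ fun i _ => FA.biUnion _ fun ρ _ => ?_
    apply FA.convex hσ
    rintro y ⟨h1, h2⟩ y' ⟨h1', h2'⟩ t
    refine ⟨?_, ?_⟩
    · simp only [Pi.add_apply, Pi.smul_apply, Pi.sub_apply, h1, h1', smul_eq_mul]
      ring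
    · simp only [Pi.add_apply, Pi.smul_apply, Pi.sub_apply, h2, h2', smul_eq_mul]
      ring

end main

end Pool.Agent.X296.Tri
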