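import Pool.Agent.X296.Tri.Nor
import Pool.Agent.Y720.MZ.Quar

/-!
# Rational points on `w³ = c f(z)` close to a given rational point
-/

set_option autoImplicit false

open WeierstrassCurve Filter Topology

namespace Pool.Agent.X296.Tri

open Pool.Agent.Y720.MZ

section lim

variable {K : Type*} [Field K] [CharZero K] [DecidableEq K] {L : Type*} [NontriviallyNormedField L]
  [ProperSpace L]

/-- points close to a point of infinite order on `y² = x³ + k` -/
theorem near_E (σ : K →+* L) {k x₀ y₀ : K} (hk : k ≠ 0) (hx₀ : x₀ ≠ 0) (hy₀ : y₀ ≠ 0)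
    (hP₀ : (cv 0 0 k).toAffine.Nonsingular x₀ y₀)
    (hP : ∀ n : ℕ, n ≠ 0 → n • (.some x₀ y₀ hP₀ : Pt 0 0 k) ≠ 0) {ε : ℝ} (hε : 0 < ε) :
    ∃ x y : K, y ^ 2 = x ^ 3 + k ∧ ‖σ (x - x₀)‖ < ε ∧ ‖σ (y - y₀)‖ < ε ∧ y ≠ y₀ := by
  have : CharZero L := charZero_of_injective_ringHom σ.injective
  have hD : dsc (0 : K) 0 k ≠ 0 := by
    have e : dsc (0 : K) 0 k = -27 * k ^ 2 := by rw [dsc]; ring
    rw [e]
    exact mul_ne_zero (by norm_num) (pow_ne_zero 2 hk)
  have hex : ∀ j : ℕ, ∃ n : ℕ, n ≠ 0 ∧ ∃ x y h, n • (.some x₀ y₀ hP₀ : Pt 0 0 k) = .some x y h ∧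
      ((j : ℝ) + ‖σ x₀‖) < ‖σ x‖ := fun j => accum σ hD hP _
  choose n hn x y h hxy hR using hex
  have hx : Tendsto (fun j => ‖σ (x j)‖) atTop atTop := by
    refine tendsto_atTop_mono (fun j => ?_) tendsto_natCast_atTop_atTop
    have := hR j
    have h1 := norm_nonneg (σ x₀)
    linarith
  have hu : Tendsto (fun j => (σ (x j))⁻¹) atTop (𝓝 0) :=
    tendsto_inv₀_cobounded.comp (tendsto_norm_atTop_iff_cobounded.1 hx)
  set u : ℕ → L := fun j => (σ (x j))⁻¹ with hudef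
  have hx0 : ∀ j, x j ≠ 0 := by
    intro j h0
    have := hR j
    rw [h0, map_zero, norm_zero] at this
    have h1 := norm_nonneg (σ x₀)
    have h2 : (0 : ℝ) ≤ j := Nat.cast_nonneg j
    linarith
  have hne : ∀ j, x₀ ≠ x j := by
    intro j h0
    have := hR j
    rw [← h0] at this
    have h2 : (0 : ℝ) ≤ j := Nat.cast_nonneg j
    linarith
  have heq : ∀ j, y j ^ 2 = x j ^ 3 + k := fun j => by
    have := (cv_ns.1 (h j)).1
    rw [this]; ring
  have heq0 : y₀ ^ 2 = x₀ ^ 3 + k := by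
    have := (cv_ns.1 hP₀).1
    rw [this]; ring
  set m : ℕ → L := fun j => σ (y j) / σ (x j) ^ 2 with hm
  have hσx : ∀ j, σ (x j) ≠ 0 := fun j => (map_ne_zero σ).2 (hx0 j)
  have hm2 : ∀ j, m j ^ 2 = u j + σ k * u j ^ 4 := by
    intro j
    have h1 := congrArg σ (heq j)
    simp only [map_add, map_pow] at h1
    have h2 := hσx j
    simp only [hm, hudef]
    rw [div_pow, h1]
    field_simp
  have hml : Tendsto m atTop (𝓝 0) := by
    have h1 : Tendsto (fun j => m j ^ 2) atTop (𝓝 0) := by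
      have : Tendsto (fun j => u j + σ k * u j ^ 4) atTop (𝓝 (0 + σ k * 0 ^ 4)) :=
        hu.add ((hu.pow 4).const_mul _)
      simp only [ne_eq, OfNat.ofNat_ne_zero, not_false_eq_true, zero_pow, mul_zero, add_zero]
        at this
      exact this.congr fun j => (hm2 j).symm
    rw [tendsto_zero_iff_norm_tendsto_zero] at h1 ⊢
    have h2 : Tendsto (fun j => Real.sqrt (‖m j ^ 2‖)) atTop (𝓝 (Real.sqrt 0)) :=
      (Real.continuous_sqrt.tendsto _).comp h1
    rw [Real.sqrt_zero] at h2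
    refine h2.congr fun j => ?_
    rw [norm_pow, Real.sqrt_sq (norm_nonneg _)]
  -- the sums
  have hadd : ∀ j, ∃ x' y' h', (.some x₀ y₀ hP₀ : Pt 0 0 k) + n j • (.some x₀ y₀ hP₀) =
      .some x' y' h' ∧ x' = ((y₀ - y j) / (x₀ - x j)) ^ 2 - 0 - x₀ - x j := by
    intro j
    obtain ⟨h', e⟩ := add_mk hP₀ (h j) (hne j) (ℓ := (y₀ - y j) / (x₀ - x j))
      (div_mul_cancel₀ _ (sub_ne_zero.2 (hne j)))
    exact ⟨_, _, h', by rw [hxy j]; exact e, rfl⟩
  choose x' y' h' hadd hx' using hadd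
  have heq' : ∀ j, y' j ^ 2 = x' j ^ 3 + k := fun j => by
    have := (cv_ns.1 (h' j)).1
    rw [this]; ring
  set a : L := σ x₀ with ha
  set b : L := σ y₀ with hb
  have hden : Tendsto (fun j => (1 - a * u j)) atTop (𝓝 1) := by
    have : Tendsto (fun j => (1 - a * u j)) atTop (𝓝 (1 - a * 0)) :=
      tendsto_const_nhds.sub (hu.const_mul _)
    simpa using this
  have hden0 : ∀ j, 1 - a * u j ≠ 0 := by
    intro j h0
    have h1 := hσx j
    simp only [hudef] at h0
    have h2 : σ (x j) = a := by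
      field_simp at h0
      linear_combination h0
    exact hne j (σ.injective (by rw [h2]))
  have hform : ∀ j, σ (x' j) = (a + a ^ 2 * u j + 2 * σ k * u j ^ 2 - 2 * m j * b) /
      (1 - a * u j) ^ 2 := by
    intro j
    have h1 := hσx j
    have h0 : σ (y₀) ^ 2 = σ x₀ ^ 3 + σ k := by
      rw [← map_pow, heq0, map_add, map_pow]
    have h2 : a - σ (x j) ≠ 0 := by
      rw [ha, ← map_sub]
      exact (map_ne_zero σ).2 (sub_ne_zero.2 (hne j))
    have h3 := hden0 j
    have h4 : σ (y j) = m j * σ (x j) ^ 2 := by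
      simp only [hm]
      field_simp
    have h5 := hm2 j
    have h6 : σ (x j) = (u j)⁻¹ := by simp only [hudef, inv_inv]
    have hu0 : u j ≠ 0 := inv_ne_zero h1
    have h7 : a - (u j)⁻¹ ≠ 0 := by rw [← h6]; exact h2
    have h8 : a * u j - 1 ≠ 0 := by
      intro h9
      apply h3
      linear_combination -h9
    have h9 : b ^ 2 = a ^ 3 + σ k := h0
    rw [hx' j]
    simp only [map_sub, map_pow, map_div₀, map_zero]
    rw [← ha, ← hb, h4, h6]
    have e1 : a - (u j)⁻¹ = (a * u j - 1) / u j := by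
      rw [eq_div_iff hu0, sub_mul, inv_mul_cancel₀ hu0]
    rw [e1, eq_div_iff (pow_ne_zero 2 h3)]
    have e2 : ((b - m j * (u j)⁻¹ ^ 2) / ((a * u j - 1) / u j)) ^ 2 =
        (b * u j ^ 2 - m j) ^ 2 / (u j ^ 2 * (a * u j - 1) ^ 2) := by
      field_simp
    rw [e2]
    have e3 : (b * u j ^ 2 - m j) ^ 2 = u j ^ 2 * (1 - a * u j) ^ 2 * (a + (u j)⁻¹) +
        u j ^ 2 * (a + a ^ 2 * u j + 2 * σ k * u j ^ 2 - 2 * m j * b) := by
      have e4 : u j ^ 2 * (1 - a * u j) ^ 2 * (a + (u j)⁻¹) =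
          u j ^ 2 * (1 - a * u j) ^ 2 * a + u j * (1 - a * u j) ^ 2 := by
        field_simp
      rw [e4]
      linear_combination h5 + u j ^ 4 * h9
    rw [e3]
    have e5 : (1 - a * u j) ^ 2 = (a * u j - 1) ^ 2 := by ring
    rw [e5]
    have gen : ∀ A B N V U : L, V ≠ 0 → U ≠ 0 →
        ((U ^ 2 * V ^ 2 * (A + B) + U ^ 2 * N) / (U ^ 2 * V ^ 2) - 0 - A - B) * V ^ 2 = N := by
      intro A B N V U hV hU
      have e6 : (U ^ 2 * V ^ 2 * (A + B) + U ^ 2 * N) / (U ^ 2 * V ^ 2) = (A + B) + N / V ^ 2 := by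
        field_simp
      rw [e6]
      field_simp
      ring
    exact gen _ _ _ _ _ h8 hu0
  have hlim : Tendsto (fun j => σ (x' j)) atTop (𝓝 a) := by
    have h1 : Tendsto (fun j => (a + a ^ 2 * u j + 2 * σ k * u j ^ 2 - 2 * m j * b) /
        (1 - a * u j) ^ 2) atTop (𝓝 ((a + a ^ 2 * 0 + 2 * σ k * 0 ^ 2 - 2 * 0 * b) / 1 ^ 2)) := by
      refine Tendsto.div ?_ (hden.pow 2) (by norm_num)
      exact ((tendsto_const_nhds.add (hu.const_mul _)).add ((hu.pow 2).const_mul _)).sub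
        ((hml.const_mul _).mul_const _)
    have e : (a + a ^ 2 * 0 + 2 * σ k * 0 ^ 2 - 2 * 0 * b) / 1 ^ 2 = a := by norm_num
    rw [e] at h1
    exact h1.congr fun j => (hform j).symm
  have ha0 : a ≠ 0 := (map_ne_zero σ).2 hx₀
  -- the four conditions hold eventually
  have c1 : ∀ᶠ j in atTop, ‖σ (x' j) - a‖ < ε := by
    have : Tendsto (fun j => ‖σ (x' j) - a‖) atTop (𝓝 ‖a - a‖) := (hlim.sub_const a).norm
    rw [sub_self, norm_zero] at this
    exact this.eventually_lt_const hε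
  have c2 : ∀ᶠ j in atTop, ‖σ (x' j) ^ 3 - a ^ 3‖ < ε ^ 2 := by
    have : Tendsto (fun j => ‖σ (x' j) ^ 3 - a ^ 3‖) atTop (𝓝 ‖a ^ 3 - a ^ 3‖) :=
      ((hlim.pow 3).sub_const _).norm
    rw [sub_self, norm_zero] at this
    exact this.eventually_lt_const (by positivity)
  have c3 : ∀ᶠ j in atTop, σ (x' j) ^ 2 + σ (x' j) * a + a ^ 2 ≠ 0 := by
    have : Tendsto (fun j => σ (x' j) ^ 2 + σ (x' j) * a + a ^ 2) atTop
        (𝓝 (a ^ 2 + a * a + a ^ 2)) :=
      ((hlim.pow 2).add (hlim.mul_const _)).add_const _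
    refine this.eventually_ne ?_
    have e : a ^ 2 + a * a + a ^ 2 = 3 * a ^ 2 := by ring
    rw [e]
    exact mul_ne_zero (by norm_num) (pow_ne_zero 2 ha0)
  obtain ⟨j, k1, k2, k3⟩ := (c1.and (c2.and c3)).exists
  -- not the same point
  have hyy : y' j ^ 2 ≠ y₀ ^ 2 := by
    intro h0
    have h1 : (x' j - x₀) * (x' j ^ 2 + x' j * x₀ + x₀ ^ 2) = 0 := by
      linear_combination h0 - heq' j + heq0
    rcases mul_eq_zero.1 h1 with h2 | h2
    · have h3 : x' j = x₀ := sub_eq_zero.1 h2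
      have h4 : (Affine.Point.some (x' j) (y' j) (h' j) : Pt 0 0 k) = .some x₀ y₀ hP₀ ∨
          (Affine.Point.some (x' j) (y' j) (h' j) : Pt 0 0 k) = -.some x₀ y₀ hP₀ :=
        Affine.Point.X_eq_iff.1 h3
      rw [← hadd j] at h4
      rcases h4 with h4 | h4
      · exact hP (n j) (hn j) (by simpa using h4)
      · apply hP (n j + 2) (by omega)
        have h5 : (n j + 2) • (Affine.Point.some x₀ y₀ hP₀ : Pt 0 0 k) =
            ((Affine.Point.some x₀ y₀ hP₀ : Pt 0 0 k) + n j • (.some x₀ y₀ hP₀)) +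
              .some x₀ y₀ hP₀ := by
          rw [add_smul, two_smul]
          abel
        rw [h5, h4, neg_add_cancel]
    · apply k3
      have := congrArg σ h2
      simpa only [map_add, map_mul, map_pow, map_zero] using this
  have hprod : ‖σ (y' j) - b‖ * ‖σ (y' j) + b‖ < ε ^ 2 := by
    rw [← norm_mul]
    have e : (σ (y' j) - b) * (σ (y' j) + b) = σ (x' j) ^ 3 - a ^ 3 := by
      have h1 := congrArg σ (heq' j)
      have h2 := congrArg σ heq0
      simp only [map_add, map_pow] at h1 h2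
      linear_combination h1 - h2
    rw [e]
    exact k2
  have hk1 : ‖σ (x' j - x₀)‖ < ε := by rw [map_sub]; exact k1
  by_cases hc : ‖σ (y' j) - b‖ < ε
  · refine ⟨x' j, y' j, heq' j, hk1, by rw [map_sub]; exact hc, fun h0 => hyy (by rw [h0])⟩
  · have hc2 : ‖σ (y' j) + b‖ < ε := by
      by_contra hcon
      push Not at hc hcon
      have := mul_le_mul hc hcon hε.le (norm_nonneg _)
      rw [← sq] at this
      linarith
    refine ⟨x' j, -y' j, by rw [neg_sq]; exact heq' j, hk1, ?_, fun h0 => hyy (by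
      rw [← h0, neg_sq])⟩
    rw [map_sub, map_neg]
    have e : -σ (y' j) - b = -(σ (y' j) + b) := by ring
    rw [e, norm_neg]
    exact hc2

end lim

end Pool.Agent.X296.Tri
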