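import Pool.Agent.Y720.MZ.EC

/-!
# The ordinates of the torsion points on all the cubic twists of an elliptic curve

The curves `y² = x³ + c⁴ d`, for all `c`, are the cubic twists of the curve `y² = x³ + d`. The
function `y / c²` is the ordinate on that curve. The duplication acts on it by a rational function
of degree four.
-/

set_option autoImplicit false

open WeierstrassCurve Height

namespace Pool.Agent.X296.Tri

open Pool.Agent.Y720.MZ

variable {K : Type*} [Field K]

/-- the numerator of the duplication -/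
def pN (d z : K) : K := z ^ 4 + 18 * d * z ^ 2 - 27 * d ^ 2

section poly

open MvPolynomial

/-- the forms of the duplication -/
noncomputable def pp (d : K) : Fin 2 → MvPolynomial (Fin 2) K :=
  ![X 0 ^ 4 + C (18 * d) * (X 0 ^ 2 * X 1 ^ 2) - C (27 * d ^ 2) * X 1 ^ 4, C 8 * (X 0 ^ 3 * X 1)]

/-- the cofactors -/
noncomputable def qq (d : K) : Fin 2 × Fin 2 → MvPolynomial (Fin 2) K := fun a =>
  ![![X 0 ^ 3, C (-(18 * d) / 8) * (X 0 ^ 2 * X 1) + C (27 * d ^ 2 / 8) * X 1 ^ 3],
    ![C (-(3 * d) / (81 * d ^ 3)) * X 1 ^ 3 + C (-2 / (81 * d ^ 3)) * (X 0 ^ 2 * X 1),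
      C (39 * d / (8 * (81 * d ^ 3))) * (X 0 * X 1 ^ 2) + C (2 / (8 * (81 * d ^ 3))) * X 0 ^ 3]]
    a.1 a.2

lemma qq_hom (d : K) (a : Fin 2 × Fin 2) : (qq d a).IsHomogeneous 3 := by
  have h1 : ∀ (c : K) (i : Fin 2), (C c * X i ^ 3 : MvPolynomial (Fin 2) K).IsHomogeneous 3 := by
    intro c i
    exact ((isHomogeneous_X K i).pow 3).C_mul c
  have h2 : ∀ (c : K) (i j : Fin 2),
      (C c * (X i ^ 2 * X j) : MvPolynomial (Fin 2) K).IsHomogeneous 3 := by
    intro c i j
    exact (((isHomogeneous_X K i).pow 2).mul (isHomogeneous_X K j)).C_mul c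
  have h3 : ∀ (c : K) (i j : Fin 2),
      (C c * (X i * X j ^ 2) : MvPolynomial (Fin 2) K).IsHomogeneous 3 := by
    intro c i j
    exact ((isHomogeneous_X K i).mul ((isHomogeneous_X K j).pow 2)).C_mul c
  have h4 : (X 0 ^ 3 : MvPolynomial (Fin 2) K).IsHomogeneous 3 := by
    simpa using (isHomogeneous_X K (0 : Fin 2)).pow 3
  obtain ⟨i, j⟩ := a
  fin_cases i <;> fin_cases j
  · exact h4
  · exact (h2 _ _ _).add (h1 _ _)
  · exact (h1 _ _).add (h2 _ _ _)
  · exact (h3 _ _ _).add (h1 _ _)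

lemma qq_pp [CharZero K] {d : K} (hd : d ≠ 0) (x : Fin 2 → K) (k : Fin 2) :
    ∑ j, (qq d (k, j)).eval x * (pp d j).eval x = x k ^ (3 + 4) := by
  have h8 : (8 : K) ≠ 0 := by norm_num
  have h81 : (81 : K) ≠ 0 := by norm_num
  fin_cases k
  · simp only [qq, pp, Fin.sum_univ_two, Fin.zero_eta, Fin.isValue, Matrix.cons_val_zero,
      Matrix.cons_val_one, map_add, map_sub, map_mul, map_pow, eval_X, eval_C]
    field_simp
    ring
  · simp only [qq, pp, Fin.sum_univ_two, Fin.mk_one, Fin.isValue, Matrix.cons_val_zero,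
      Matrix.cons_val_one, map_add, map_sub, map_mul, map_pow, eval_X, eval_C]
    field_simp
    ring

lemma pp_eval (d z : K) : (fun j => (pp d j).eval ![z, 1]) = ![pN d z, 8 * z ^ 3] := by
  funext j
  fin_cases j
  · simp [pp, pN]
    try ring
  · simp [pp]

end poly

variable [NumberField K]

/-- the height of the duplication -/
lemma dbl_height {d : K} (hd : d ≠ 0) : ∃ B : ℝ, 0 ≤ B ∧ ∀ z : K, B < logHeight₁ z →
    z ≠ 0 ∧ logHeight₁ z < logHeight₁ (pN d z / (8 * z ^ 3)) := by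
  obtain ⟨C, hC⟩ := logHeight_eval_ge' (N := 4) (qq_hom d)
  refine ⟨|C|, abs_nonneg _, fun z hz => ?_⟩
  have hz0 : z ≠ 0 := by
    rintro rfl
    rw [logHeight₁_zero] at hz
    exact absurd hz (not_lt.2 (abs_nonneg _))
  refine ⟨hz0, ?_⟩
  have h1 := hC (pp d) (x := ![z, 1]) (qq_pp hd _)
  rw [pp_eval] at h1
  have h8 : (8 * z ^ 3 : K) ≠ 0 := mul_ne_zero (by norm_num) (pow_ne_zero 3 hz0)
  have e : (![pN d z, 8 * z ^ 3] : Fin 2 → K) =
      (8 * z ^ 3) • ![pN d z / (8 * z ^ 3), 1] := by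
    funext i
    fin_cases i
    · simp only [Fin.zero_eta, Fin.isValue, Matrix.cons_val_zero, Pi.smul_apply, smul_eq_mul]
      field_simp
    · simp
  rw [e, logHeight_smul_eq_logHeight _ h8, ← logHeight₁_eq_logHeight,
    ← logHeight₁_eq_logHeight] at h1
  have h2 := neg_abs_le C
  have h3 := abs_nonneg C
  push_cast at h1
  linarith

section tors

variable [DecidableEq K]

/-- **The ordinates of the torsion points on all the cubic twists.** -/
theorem torsion_finite {d : K} (hd : d ≠ 0) : ∃ Ξ : Set K, Ξ.Finite ∧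
    ∀ c : K, c ≠ 0 → ∀ k : K, k = c ^ 4 * d → ∀ (x y : K)
      (h : (cv 0 0 k).toAffine.Nonsingular x y), y / c ^ 2 ∉ Ξ →
      ∀ n : ℕ, n ≠ 0 → n • (.some x y h : Pt 0 0 k) ≠ 0 := by
  obtain ⟨B, hB0, hB⟩ := dbl_height hd
  refine ⟨{ξ : K | logHeight₁ ξ ≤ B}, NumberField.finite_setOfPred_logHeight₁_le K B, ?_⟩
  intro c hc k hk
  -- one step
  have step : ∀ (x y : K) (h : (cv 0 0 k).toAffine.Nonsingular x y),
      B < logHeight₁ (y / c ^ 2) → ∃ x' y' h', (.some x y h : Pt 0 0 k) +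
        .some x y h = .some x' y' h' ∧ logHeight₁ (y / c ^ 2) < logHeight₁ (y' / c ^ 2) := by
    intro x y h hx
    have heq := (cv_ns.1 h).1
    obtain ⟨hz0, hlt⟩ := hB _ hx
    set z := y / c ^ 2 with hz
    have hyz : y = c ^ 2 * z := by rw [hz]; field_simp
    have hy0 : y ≠ 0 := by rw [hyz]; exact mul_ne_zero (pow_ne_zero 2 hc) hz0
    have h2y : 2 * y ≠ 0 := mul_ne_zero two_ne_zero hy0
    obtain ⟨h', e⟩ := dbl_mk h h2y (ℓ := (3 * x ^ 2 + 2 * 0 * x + 0) / (2 * y))
      (by field_simp)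
    refine ⟨_, _, h', e, ?_⟩
    have e2 : -(((3 * x ^ 2 + 2 * 0 * x + 0) / (2 * y)) *
        (((3 * x ^ 2 + 2 * 0 * x + 0) / (2 * y)) ^ 2 - 0 - x - x - x) + y) / c ^ 2 =
        pN d z / (8 * z ^ 3) := by
      have hx3 : x ^ 3 = y ^ 2 - k := by rw [heq]; ring
      have e3 : -(((3 * x ^ 2 + 2 * 0 * x + 0) / (2 * y)) *
        (((3 * x ^ 2 + 2 * 0 * x + 0) / (2 * y)) ^ 2 - 0 - x - x - x) + y) =
        -(27 * (x ^ 3) ^ 2 - 36 * y ^ 2 * x ^ 3 + 8 * y ^ 4) / (8 * y ^ 3) := by
        field_simp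
        ring
      rw [e3, hx3, hk, hyz, pN]
      field_simp
      ring
    rw [e2]
    exact hlt
  intro x y h hx n hn
  have hx' : B < logHeight₁ (y / c ^ 2) := not_le.1 hx
  set P : Pt 0 0 k := .some x y h with hP
  -- the multiples by powers of two
  have hpow : ∀ m : ℕ, ∃ x' y' h', (2 ^ m) • P = .some x' y' h' ∧
      B < logHeight₁ (y' / c ^ 2) ∧
      ∀ j < m, ∀ x'' y'' h'', (2 ^ j) • P = .some x'' y'' h'' →
        logHeight₁ (y'' / c ^ 2) < logHeight₁ (y' / c ^ 2) := by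
    intro m
    induction m with
    | zero => exact ⟨x, y, h, by rw [pow_zero, one_smul], hx', fun j hj => by omega⟩
    | succ m ih =>
      obtain ⟨x', y', h', e, h1, h3⟩ := ih
      obtain ⟨x1, y1, h1', e1, h4⟩ := step x' y' h' h1
      refine ⟨x1, y1, h1', ?_, h1.trans h4, ?_⟩
      · have e3 : (2 ^ (m + 1) : ℕ) = 2 ^ m + 2 ^ m := by ring
        rw [e3, add_smul, e, e1]
      · intro j hj x'' y'' h'' e''
        rcases Nat.lt_succ_iff_lt_or_eq.1 hj with hj | rfl
        · exact (h3 j hj x'' y'' h'' e'').trans h4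
        · rw [e] at e''
          have : y' = y'' := by
            injection e''
          rw [← this]
          exact h4
  intro h0
  -- finitely many multiples
  have hfin : (Set.range fun m : ℕ => m • P).Finite := by
    refine ((Finset.range n).finite_toSet.image fun m : ℕ => m • P).subset ?_
    rintro _ ⟨m, rfl⟩
    refine ⟨m % n, ?_, ?_⟩
    · rw [Finset.coe_range]
      exact Nat.mod_lt _ (Nat.pos_of_ne_zero hn)
    · change (m % n) • P = m • P
      conv_rhs => rw [← Nat.mod_add_div m n, add_smul, mul_comm n, mul_smul, h0, smul_zero,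
        add_zero]
  have hinj : Function.Injective fun m : ℕ => (2 ^ m) • P := by
    intro i j hij
    by_contra hne
    rcases lt_or_gt_of_ne hne with hlt | hlt
    · obtain ⟨x1, y1, h1, e1, -⟩ := hpow i
      obtain ⟨x2, y2, h2, e2, -, h3⟩ := hpow j
      have h4 := h3 i hlt x1 y1 h1 e1
      have h5 : (.some x1 y1 h1 : Pt 0 0 k) = .some x2 y2 h2 := by
        rw [← e1, ← e2]; exact hij
      have : y1 = y2 := by injection h5
      rw [this] at h4
      exact lt_irrefl _ h4
    · obtain ⟨x1, y1, h1, e1, -⟩ := hpow j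
      obtain ⟨x2, y2, h2, e2, -, h3⟩ := hpow i
      have h4 := h3 j hlt x1 y1 h1 e1
      have h5 : (.some x1 y1 h1 : Pt 0 0 k) = .some x2 y2 h2 := by
        rw [← e1, ← e2]; exact hij.symm
      have : y1 = y2 := by injection h5
      rw [this] at h4
      exact lt_irrefl _ h4
  exact Set.infinite_of_injective_forall_mem hinj
    (fun m => Set.mem_range_self (f := fun m : ℕ => m • P) (2 ^ m)) hfin

end tors

end Pool.Agent.X296.Tri
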